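import Mathlib

/-!
# Largest unit-free families of 0/1 vectors of weight exactly k

The largest number of weight-`k` vertices of the `n`-cube whose real span contains no standard
unit vector is `⌊(n+1)/k⌋ * C(n - ⌊(n+1)/k⌋, k - 1)` for `2 ≤ k ≤ n`, and `0` for `k = 1`.
-/

namespace Pool.Agent.NK.Base

open Finset Nat

/-! ### Arithmetic of binomial coefficients -/

/-- Term by term comparison behind the Vandermonde argument. -/
lemma term_le (b l m : ℕ) (hl : 2 ≤ l) (hm1 : m * l ≤ b + 1) (hm2 : b + 1 ≤ (m + 1) * l)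
    (hex : ¬ (b = 3 ∧ l = 2)) (i : ℕ) :
    m.choose i * b.choose l ≤ m * b.choose (l - 1 + i) := by
  rcases Nat.eq_zero_or_pos m with hm0 | hm0
  · subst hm0
    rcases Nat.eq_zero_or_pos i with hi | hi
    · subst hi
      have : b.choose l = 0 := Nat.choose_eq_zero_of_lt (by omega)
      simp [this]
    · have : (0 : ℕ).choose i = 0 := Nat.choose_eq_zero_of_lt hi
      simp [this]
  -- i = 0
  rcases i with _ | i
  · have h := Nat.choose_succ_right_eq b (l - 1)
    have e : l - 1 + 1 = l := by omega
    rw [e] at h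
    have h2 : b - (l - 1) ≤ m * l := by
      have : (m + 1) * l = m * l + l := by ring
      omega
    have h3 : b.choose l * l ≤ (m * b.choose (l - 1)) * l := by
      calc b.choose l * l = b.choose (l - 1) * (b - (l - 1)) := h
        _ ≤ b.choose (l - 1) * (m * l) := Nat.mul_le_mul_left _ h2
        _ = (m * b.choose (l - 1)) * l := by ring
    have h4 := Nat.le_of_mul_le_mul_right h3 (by omega)
    simpa using h4
  rcases i with _ | i
  · have e : l - 1 + (0 + 1) = l := by omega
    rw [e]; simp
  -- i ≥ 2, by induction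
  by_cases hm : m = 1
  · subst hm
    have : (1 : ℕ).choose (i + 1 + 1) = 0 := Nat.choose_eq_zero_of_lt (by omega)
    simp [this]
  have hm2' : 2 ≤ m := by omega
  induction i with
  | zero =>
    -- i = 2
    have e : l - 1 + (0 + 1 + 1) = l + 1 := by omega
    rw [e]
    have h := Nat.choose_succ_right_eq b l
    have hbl : (m - 1) * (l + 1) ≤ 2 * (b - l) := by
      obtain ⟨m', rfl⟩ : ∃ m', m = m' + 2 := ⟨m - 2, by omega⟩
      obtain ⟨l', rfl⟩ : ∃ l', l = l' + 2 := ⟨l - 2, by omega⟩
      have e1 : m' + 2 - 1 = m' + 1 := by omega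
      rw [e1]
      have h5 : (m' + 2) * (l' + 2) = m' * l' + 2 * m' + 2 * l' + 4 := by ring
      have h6 : (m' + 1) * (l' + 2 + 1) = m' * l' + 3 * m' + l' + 3 := by ring
      rw [h6]
      rw [h5] at hm1
      by_cases h7 : m' = 0 ∧ l' = 0
      · obtain ⟨h7, h8⟩ := h7
        subst h7; subst h8
        simp at *
        omega
      · rcases Nat.eq_zero_or_pos l' with h8 | h8
        · subst h8
          have : 1 ≤ m' := by
            rcases Nat.eq_zero_or_pos m' with h9 | h9
            · exact absurd ⟨h9, rfl⟩ h7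
            · exact h9
          simp at *
          omega
        · have h9 : m' ≤ m' * l' := Nat.le_mul_of_pos_right _ h8
          omega
    have h2 : 2 * m.choose 2 = m * (m - 1) := by
      have := Nat.choose_two_right m
      rw [this]
      have h3 : 2 ∣ m * (m - 1) := by
        have := Nat.even_mul_pred_self m
        exact this.two_dvd
      exact Nat.mul_div_cancel' h3
    have h3 : (m.choose 2 * b.choose l) * (2 * (l + 1)) ≤ (m * b.choose (l + 1)) * (2 * (l + 1)) := by
      calc (m.choose 2 * b.choose l) * (2 * (l + 1))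
          = (2 * m.choose 2) * (b.choose l * (l + 1)) := by ring
        _ = (m * (m - 1)) * (b.choose l * (l + 1)) := by rw [h2]
        _ = m * b.choose l * ((m - 1) * (l + 1)) := by ring
        _ ≤ m * b.choose l * (2 * (b - l)) := Nat.mul_le_mul_left _ hbl
        _ = 2 * m * (b.choose l * (b - l)) := by ring
        _ = 2 * m * (b.choose (l + 1) * (l + 1)) := by rw [h]
        _ = (m * b.choose (l + 1)) * (2 * (l + 1)) := by ring
    exact Nat.le_of_mul_le_mul_right h3 (by positivity)
  | succ i ih =>
    -- from i + 2 to i + 3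
    by_cases him : m ≤ i + 1 + 1
    · have : m.choose (i + 1 + 1 + 1) = 0 := Nat.choose_eq_zero_of_lt (by omega)
      rw [this]; simp
    · push Not at him
      set s := i + 1 + 1 with hs
      have hs2 : 2 ≤ s := by omega
      have h1 := Nat.choose_succ_right_eq m s
      have h2 := Nat.choose_succ_right_eq b (l - 1 + s)
      have e : l - 1 + (s + 1) = l - 1 + s + 1 := by omega
      have e2 : l - 1 + s + 1 = l + s := by omega
      rw [e]
      have key : (m - s) * (l - 1 + s + 1) ≤ (b - (l - 1 + s)) * (s + 1) := by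
        obtain ⟨d, rfl⟩ : ∃ d, m = s + 1 + d := ⟨m - (s + 1), by omega⟩
        obtain ⟨l', rfl⟩ : ∃ l', l = l' + 2 := ⟨l - 2, by omega⟩
        obtain ⟨s', hs'⟩ : ∃ s', s = s' + 2 := ⟨s - 2, by omega⟩
        have e3 : s + 1 + d - s = d + 1 := by omega
        have e4 : l' + 2 - 1 + s + 1 = l' + 2 + s := by omega
        have e5 : b - (l' + 2 - 1 + s) ≥ (s + 1 + d) * (l' + 2) - (l' + 2 + s) := by omega
        rw [e3, e4]
        refine le_trans ?_ (Nat.mul_le_mul_right _ e5)
        have e6 : (s + 1 + d) * (l' + 2) - (l' + 2 + s) = s * l' + s + d * l' + 2 * d := by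
          have : (s + 1 + d) * (l' + 2) = (s * l' + s + d * l' + 2 * d) + (l' + 2 + s) := by ring
          omega
        rw [e6, hs']
        have : (d + 1) * (l' + 2 + (s' + 2)) ≤
            ((s' + 2) * l' + (s' + 2) + d * l' + 2 * d) * (s' + 2 + 1) := by
          nlinarith [Nat.zero_le (d * l'), Nat.zero_le (s' * l'), Nat.zero_le (d * s'),
            Nat.zero_le (d * s' * l'), Nat.zero_le (s' * s' * l'), Nat.zero_le (s' * s'),
            Nat.zero_le l', Nat.zero_le d, Nat.zero_le s', Nat.zero_le (d * l' * s')]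
        exact this
      have h3 : (m.choose (s + 1) * b.choose l) * ((s + 1) * (l - 1 + s + 1)) ≤
          (m * b.choose (l - 1 + s + 1)) * ((s + 1) * (l - 1 + s + 1)) := by
        calc (m.choose (s + 1) * b.choose l) * ((s + 1) * (l - 1 + s + 1))
            = (m.choose (s + 1) * (s + 1)) * b.choose l * (l - 1 + s + 1) := by ring
          _ = (m.choose s * (m - s)) * b.choose l * (l - 1 + s + 1) := by rw [h1]
          _ = (m.choose s * b.choose l) * ((m - s) * (l - 1 + s + 1)) := by ring
          _ ≤ (m * b.choose (l - 1 + s)) * ((m - s) * (l - 1 + s + 1)) :=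
              Nat.mul_le_mul_right _ ih
          _ ≤ (m * b.choose (l - 1 + s)) * ((b - (l - 1 + s)) * (s + 1)) :=
              Nat.mul_le_mul_left _ key
          _ = m * (b.choose (l - 1 + s) * (b - (l - 1 + s))) * (s + 1) := by ring
          _ = m * (b.choose (l - 1 + s + 1) * (l - 1 + s + 1)) * (s + 1) := by rw [h2]
          _ = (m * b.choose (l - 1 + s + 1)) * ((s + 1) * (l - 1 + s + 1)) := by ring
      exact Nat.le_of_mul_le_mul_right h3 (by positivity)

/-- One-sided comparison of a product of two binomial coefficients with `m * C(a + b - m, ·)`. -/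
lemma side (a b j l : ℕ) (hl : 2 ≤ l) (hex : ¬ (b = 3 ∧ l = 2)) (ha : (b + 1) / l ≤ a) :
    ∃ m, a.choose j * b.choose l ≤ m * (a + b - m).choose (j + l - 1) := by
  refine ⟨(b + 1) / l, ?_⟩
  set m := (b + 1) / l with hm
  have hm1 : m * l ≤ b + 1 := Nat.div_mul_le_self _ _
  have hm2 : b + 1 ≤ (m + 1) * l := by
    have := Nat.lt_mul_div_succ (b + 1) (show 0 < l by omega)
    rw [← hm] at this
    have h2 : l * (m + 1) = (m + 1) * l := by ring
    omega
  obtain ⟨a', ha'⟩ : ∃ a', a = m + a' := ⟨a - m, by omega⟩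
  have e1 : a + b - m = a' + b := by omega
  rw [e1, ha', Nat.add_choose_eq m a' j, Nat.add_choose_eq a' b (j + l - 1), Finset.sum_mul,
    Finset.mul_sum]
  -- compare with the image of the antidiagonal
  have hinj : Set.InjOn (fun ij : ℕ × ℕ => (ij.2, l - 1 + ij.1)) (antidiagonal j : Set (ℕ × ℕ)) := by
    rintro ⟨x, y⟩ _ ⟨x', y'⟩ _ h
    simp only [Prod.mk.injEq] at h
    ext <;> simp <;> omega
  calc ∑ ij ∈ antidiagonal j, m.choose ij.1 * a'.choose ij.2 * b.choose l
      ≤ ∑ ij ∈ antidiagonal j, m * (a'.choose ij.2 * b.choose (l - 1 + ij.1)) := by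
        refine Finset.sum_le_sum fun ij _ => ?_
        have := term_le b l m hl hm1 hm2 hex ij.1
        calc m.choose ij.1 * a'.choose ij.2 * b.choose l
            = a'.choose ij.2 * (m.choose ij.1 * b.choose l) := by ring
          _ ≤ a'.choose ij.2 * (m * b.choose (l - 1 + ij.1)) := Nat.mul_le_mul_left _ this
          _ = m * (a'.choose ij.2 * b.choose (l - 1 + ij.1)) := by ring
    _ = ∑ p ∈ (antidiagonal j).image (fun ij : ℕ × ℕ => (ij.2, l - 1 + ij.1)),
          m * (a'.choose p.1 * b.choose p.2) := by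
        rw [Finset.sum_image hinj]
    _ ≤ ∑ p ∈ antidiagonal (j + l - 1), m * (a'.choose p.1 * b.choose p.2) := by
        refine Finset.sum_le_sum_of_subset ?_
        intro p hp
        simp only [Finset.mem_image, Finset.HasAntidiagonal.mem_antidiagonal] at hp ⊢
        obtain ⟨⟨x, y⟩, hxy, rfl⟩ := hp
        simp only at hxy ⊢
        omega

/-- Every product `C(a,j) * C(b,l)` with `j, l ≥ 1` is at most some `m * C(a+b-m, j+l-1)`. -/
lemma exists_block (a b j l : ℕ) (hj : 1 ≤ j) (hl : 1 ≤ l) :
    ∃ m, a.choose j * b.choose l ≤ m * (a + b - m).choose (j + l - 1) := by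
  by_cases hl1 : l = 1
  · subst hl1
    refine ⟨b, ?_⟩
    have e1 : a + b - b = a := by omega
    have e2 : j + 1 - 1 = j := by omega
    rw [e1, e2, Nat.choose_one_right, Nat.mul_comm]
  by_cases hj1 : j = 1
  · subst hj1
    refine ⟨a, ?_⟩
    have e1 : a + b - a = b := by omega
    have e2 : 1 + l - 1 = l := by omega
    rw [e1, e2, Nat.choose_one_right]
  have hl2 : 2 ≤ l := by omega
  have hj2 : 2 ≤ j := by omega
  by_cases hA : ¬ (b = 3 ∧ l = 2) ∧ (b + 1) / l ≤ a
  · exact side a b j l hl2 hA.1 hA.2
  by_cases hB : ¬ (a = 3 ∧ j = 2) ∧ (a + 1) / j ≤ b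
  · obtain ⟨m, hm⟩ := side b a l j hj2 hB.1 hB.2
    refine ⟨m, ?_⟩
    rw [Nat.add_comm a b, Nat.add_comm j l, Nat.mul_comm (a.choose j)]
    exact hm
  -- growth lemma: a large ratio on one side
  have grow : ∀ c i : ℕ, 2 ≤ i → 4 * i ≤ c + 1 → 3 * c.choose i ≤ 2 * (c + 1).choose (i + 1) := by
    intro c i hi hc
    have h := Nat.add_one_mul_choose_eq c i
    have h2 : (3 * c.choose i) * (i + 1) ≤ (2 * (c + 1).choose (i + 1)) * (i + 1) := by
      calc (3 * c.choose i) * (i + 1) = c.choose i * (3 * (i + 1)) := by ring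
        _ ≤ c.choose i * (2 * (c + 1)) := Nat.mul_le_mul_left _ (by omega)
        _ = 2 * ((c + 1) * c.choose i) := by ring
        _ = 2 * ((c + 1).choose (i + 1) * (i + 1)) := by rw [h]
        _ = (2 * (c + 1).choose (i + 1)) * (i + 1) := by ring
    exact Nat.le_of_mul_le_mul_right h2 (by positivity)
  by_cases hbl : b = 3 ∧ l = 2
  · obtain ⟨rfl, rfl⟩ := hbl
    by_cases haj : a = 3 ∧ j = 2
    · obtain ⟨rfl, rfl⟩ := haj
      exact ⟨1, by decide⟩
    · have h3 : 3 < (a + 1) / j := by
        by_contra hcon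
        exact hB ⟨haj, by omega⟩
      have h4 : 4 * j ≤ a + 1 := by
        have : 4 ≤ (a + 1) / j := h3
        exact (Nat.le_div_iff_mul_le (by omega)).1 this
      refine ⟨2, ?_⟩
      have e1 : a + 3 - 2 = a + 1 := by omega
      have e2 : j + 2 - 1 = j + 1 := by omega
      have e3 : (3 : ℕ).choose 2 = 3 := by decide
      rw [e1, e2, e3, Nat.mul_comm]
      exact grow a j hj2 h4
  · have h3 : a < (b + 1) / l := by
      by_contra hcon
      exact hA ⟨hbl, by omega⟩
    have h4 : (a + 1) * l ≤ b + 1 := by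
      have : a + 1 ≤ (b + 1) / l := h3
      exact (Nat.le_div_iff_mul_le (by omega)).1 this
    by_cases haj : a = 3 ∧ j = 2
    · obtain ⟨rfl, rfl⟩ := haj
      refine ⟨2, ?_⟩
      have e1 : 3 + b - 2 = b + 1 := by omega
      have e2 : 2 + l - 1 = l + 1 := by omega
      have e3 : (3 : ℕ).choose 2 = 3 := by decide
      rw [e1, e2, e3]
      exact grow b l hl2 (by omega)
    · exfalso
      have h5 : b < (a + 1) / j := by
        by_contra hcon
        exact hB ⟨haj, by omega⟩
      have h6 : (b + 1) * j ≤ a + 1 := by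
        have : b + 1 ≤ (a + 1) / j := h5
        exact (Nat.le_div_iff_mul_le (by omega)).1 this
      nlinarith

/-- The function `m ↦ m * C(n - m, k - 1)` is maximised at `m = ⌊(n+1)/k⌋`. -/
lemma block_le (n k : ℕ) (hk : 2 ≤ k) (hkn : k ≤ n) (m : ℕ) :
    m * (n - m).choose (k - 1) ≤ ((n + 1) / k) * (n - (n + 1) / k).choose (k - 1) := by
  obtain ⟨r, rfl⟩ : ∃ r, k = r + 1 := ⟨k - 1, by omega⟩
  have hr : 1 ≤ r := by omega
  simp only [Nat.add_sub_cancel]
  set f : ℕ → ℕ := fun m => m * (n - m).choose r with hf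
  set m₀ := (n + 1) / (r + 1) with hm₀
  have hm₀1 : m₀ * (r + 1) ≤ n + 1 := Nat.div_mul_le_self _ _
  have hm₀2 : n + 1 < (m₀ + 1) * (r + 1) := by
    have := Nat.lt_mul_div_succ (n + 1) (show 0 < r + 1 by omega)
    rw [← hm₀] at this
    have h2 : (r + 1) * (m₀ + 1) = (m₀ + 1) * (r + 1) := by ring
    omega
  -- increasing up to m₀
  have up : ∀ m, m + 1 ≤ m₀ → f m ≤ f (m + 1) := by
    intro m hm
    rcases Nat.eq_zero_or_pos m with h0 | h0
    · subst h0; simp [hf]
    have h1 : (m + 1) * (r + 1) ≤ n + 1 := le_trans (Nat.mul_le_mul_right _ hm) hm₀1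
    have h2 : m + 1 ≤ n := by
      have : (m + 1) * (r + 1) ≥ (m + 1) * 2 := Nat.mul_le_mul_left _ (by omega)
      omega
    obtain ⟨N, hN⟩ : ∃ N, n - m = N + 1 := ⟨n - m - 1, by omega⟩
    have hN' : n - (m + 1) = N := by omega
    have h3 := Nat.choose_mul_succ_eq N r
    show m * (n - m).choose r ≤ (m + 1) * (n - (m + 1)).choose r
    rw [hN, hN']
    have h4 : (m + 1) * (r + 1) = m * r + m + r + 1 := by ring
    have h5 : 0 < N + 1 - r := by
      have : m ≤ m * r := Nat.le_mul_of_pos_right _ hr
      omega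
    have h6 : m * (N + 1) ≤ (m + 1) * (N + 1 - r) := by
      obtain ⟨d, hd⟩ : ∃ d, N + 1 = r + d := ⟨N + 1 - r, by omega⟩
      have : N + 1 - r = d := by omega
      rw [this, hd]
      have e : m * (r + d) = m * r + m * d := by ring
      have e' : (m + 1) * d = m * d + d := by ring
      omega
    have h7 : (m * (N + 1).choose r) * (N + 1 - r) ≤ ((m + 1) * N.choose r) * (N + 1 - r) := by
      calc (m * (N + 1).choose r) * (N + 1 - r) = m * ((N + 1).choose r * (N + 1 - r)) := by ring
        _ = m * (N.choose r * (N + 1)) := by rw [h3]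
        _ = N.choose r * (m * (N + 1)) := by ring
        _ ≤ N.choose r * ((m + 1) * (N + 1 - r)) := Nat.mul_le_mul_left _ h6
        _ = ((m + 1) * N.choose r) * (N + 1 - r) := by ring
    exact Nat.le_of_mul_le_mul_right h7 h5
  -- decreasing from m₀ on
  have down : ∀ m, m₀ ≤ m → f (m + 1) ≤ f m := by
    intro m hm
    have h1 : n + 1 < (m + 1) * (r + 1) := lt_of_lt_of_le hm₀2 (Nat.mul_le_mul_right _ (by omega))
    rcases Nat.lt_or_ge n (m + 1) with h2 | h2
    · have h3 : n - (m + 1) = 0 := by omega
      show (m + 1) * (n - (m + 1)).choose r ≤ m * (n - m).choose r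
      rw [h3, Nat.choose_eq_zero_of_lt (show 0 < r by omega)]
      simp
    obtain ⟨N, hN⟩ : ∃ N, n - m = N + 1 := ⟨n - m - 1, by omega⟩
    have hN' : n - (m + 1) = N := by omega
    have h3 := Nat.choose_mul_succ_eq N r
    show (m + 1) * (n - (m + 1)).choose r ≤ m * (n - m).choose r
    rw [hN, hN']
    have h4 : (m + 1) * (r + 1) = m * r + m + r + 1 := by ring
    have h6 : (m + 1) * (N + 1 - r) ≤ m * (N + 1) := by
      rcases Nat.lt_or_ge (N + 1) r with h | h
      · have : N + 1 - r = 0 := by omega
        rw [this]; simp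
      obtain ⟨d, hd⟩ : ∃ d, N + 1 = r + d := ⟨N + 1 - r, by omega⟩
      have : N + 1 - r = d := by omega
      rw [this, hd]
      have e : m * (r + d) = m * r + m * d := by ring
      have e' : (m + 1) * d = m * d + d := by ring
      omega
    have h7 : ((m + 1) * N.choose r) * (N + 1) ≤ (m * (N + 1).choose r) * (N + 1) := by
      calc ((m + 1) * N.choose r) * (N + 1) = (m + 1) * (N.choose r * (N + 1)) := by ring
        _ = (m + 1) * ((N + 1).choose r * (N + 1 - r)) := by rw [h3]
        _ = (N + 1).choose r * ((m + 1) * (N + 1 - r)) := by ring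
        _ ≤ (N + 1).choose r * (m * (N + 1)) := Nat.mul_le_mul_left _ h6
        _ = (m * (N + 1).choose r) * (N + 1) := by ring
    exact Nat.le_of_mul_le_mul_right h7 (by omega)
  show f m ≤ f m₀
  rcases le_total m m₀ with h | h
  · -- induction downward
    have : ∀ d, d ≤ m₀ → f (m₀ - d) ≤ f m₀ := by
      intro d
      induction d with
      | zero => intro _; simp
      | succ d ih =>
        intro hd
        refine le_trans ?_ (ih (by omega))
        have e : m₀ - d = (m₀ - (d + 1)) + 1 := by omega
        rw [e]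
        exact up _ (by omega)
    have h2 := this (m₀ - m) (by omega)
    have e : m₀ - (m₀ - m) = m := by omega
    rwa [e] at h2
  · induction m, h using Nat.le_induction with
    | base => exact le_rfl
    | succ m hm ih => exact le_trans (down m hm) ih

/-- The arithmetic input: all products are at most the closed form. -/
lemma prod_le (a b j l : ℕ) (hj : 1 ≤ j) (hl : 1 ≤ l) (hkn : j + l ≤ a + b) :
    a.choose j * b.choose l ≤
      ((a + b + 1) / (j + l)) * (a + b - (a + b + 1) / (j + l)).choose (j + l - 1) := by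
  obtain ⟨m, hm⟩ := exists_block a b j l hj hl
  exact le_trans hm (block_le (a + b) (j + l) (by omega) hkn m)

/-! ### The permutation argument for zero-sum sets -/

section ZeroSum

variable {α : Type*} [Fintype α] [DecidableEq α]

/-- For nonzero reals `x`, a family of zero-sum `k`-sets has at most `V` members as soon as `V`
bounds all the products `C(a,j) * C(b,k-j)`, `1 ≤ j ≤ k - 1`, `a + b = n`. -/
lemma zero_sum_card_le (k V : ℕ) (x : α → ℝ) (hx : ∀ i, x i ≠ 0)
    (F : Finset (Finset α)) (hFk : ∀ s ∈ F, s.card = k) (hF0 : ∀ s ∈ F, ∑ i ∈ s, x i = 0)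
    (hk : 1 ≤ k)
    (hV : ∀ a b j l : ℕ, 1 ≤ j → 1 ≤ l → a + b = Fintype.card α → j + l = k →
      a.choose j * b.choose l ≤ V) : F.card ≤ V := by
  classical
  let P := {i : α // 0 < x i}
  let Q := {i : α // ¬ 0 < x i}
  let sp : Finset α → Finset P := fun s => s.subtype (fun i => 0 < x i)
  let sq : Finset α → Finset Q := fun s => s.subtype (fun i => ¬ 0 < x i)
  have hneg : ∀ i : Q, x i.1 < 0 := fun i => lt_of_le_of_ne (not_lt.1 i.2) (hx _)
  have hcardPQ : Fintype.card P + Fintype.card Q = Fintype.card α := by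
    have := Fintype.card_subtype_compl (fun i : α => 0 < x i)
    have h2 := Fintype.card_subtype_le (fun i : α => 0 < x i)
    show Fintype.card {i : α // 0 < x i} + Fintype.card {i : α // ¬ 0 < x i} = _
    omega
  have hsum : ∀ s : Finset α, ∑ i ∈ s, x i = ∑ i ∈ sp s, x i.1 + ∑ i ∈ sq s, x i.1 := by
    intro s
    have h1 : ∑ i ∈ sp s, x i.1 = ∑ i ∈ s.filter (fun i => 0 < x i), x i :=
      Finset.sum_subtype_eq_sum_filter (s := s) (f := x) (p := fun i => 0 < x i)
    have h2 : ∑ i ∈ sq s, x i.1 = ∑ i ∈ s.filter (fun i => ¬ 0 < x i), x i :=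
      Finset.sum_subtype_eq_sum_filter (s := s) (f := x) (p := fun i => ¬ 0 < x i)
    rw [h1, h2, Finset.sum_filter_add_sum_filter_not]
  have hcard : ∀ s : Finset α, s.card = (sp s).card + (sq s).card := by
    intro s
    have h1 : (sp s).card = (s.filter (fun i => 0 < x i)).card := Finset.card_subtype _ _
    have h2 : (sq s).card = (s.filter (fun i => ¬ 0 < x i)).card := Finset.card_subtype _ _
    rw [h1, h2, Finset.card_filter_add_card_filter_not]
  let T : Finset α → Finset (Numbering P × Numbering Q) :=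
    fun s => Numbering.prefixed (sp s) ×ˢ Numbering.prefixed (sq s)
  -- key: nested pairs are equal
  have nested : ∀ s ∈ F, ∀ t ∈ F, sp s ⊆ sp t → sq t ⊆ sq s → s = t := by
    intro s hs t ht h1 h2
    have e1 : ∑ i ∈ sp s, x i.1 ≤ ∑ i ∈ sp t, x i.1 :=
      Finset.sum_le_sum_of_subset_of_nonneg h1 (fun i _ _ => i.2.le)
    have e2 : ∑ i ∈ sq s, x i.1 ≤ ∑ i ∈ sq t, x i.1 := by
      have : ∑ i ∈ sq t, (-x i.1) ≤ ∑ i ∈ sq s, (-x i.1) :=
        Finset.sum_le_sum_of_subset_of_nonneg h2 (fun i _ _ => by linarith [hneg i])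
      simp only [Finset.sum_neg_distrib] at this
      linarith
    have e3 : ∑ i ∈ sp s, x i.1 + ∑ i ∈ sq s, x i.1 = 0 := by rw [← hsum, hF0 s hs]
    have e4 : ∑ i ∈ sp t, x i.1 + ∑ i ∈ sq t, x i.1 = 0 := by rw [← hsum, hF0 t ht]
    have hp : sp s = sp t := by
      by_contra hne
      have hss : sp s ⊂ sp t := lt_of_le_of_ne h1 hne
      obtain ⟨i, hit, his⟩ := Finset.exists_of_ssubset hss
      have : ∑ i ∈ sp s, x i.1 < ∑ i ∈ sp t, x i.1 :=
        Finset.sum_lt_sum_of_subset h1 hit his i.2 (fun j _ _ => j.2.le)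
      linarith
    have hq : sq s = sq t := by
      by_contra hne
      have hss : sq t ⊂ sq s := lt_of_le_of_ne h2 (Ne.symm hne)
      obtain ⟨i, hit, his⟩ := Finset.exists_of_ssubset hss
      have : ∑ i ∈ sq t, (-x i.1) < ∑ i ∈ sq s, (-x i.1) :=
        Finset.sum_lt_sum_of_subset h2 hit his (by linarith [hneg i])
          (fun j _ _ => by linarith [hneg j])
      simp only [Finset.sum_neg_distrib] at this
      linarith
    ext i
    by_cases hi : 0 < x i
    · have h3 : (⟨i, hi⟩ : P) ∈ sp s ↔ (⟨i, hi⟩ : P) ∈ sp t := by rw [hp]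
      exact Finset.mem_subtype.symm.trans (h3.trans Finset.mem_subtype)
    · have h3 : (⟨i, hi⟩ : Q) ∈ sq s ↔ (⟨i, hi⟩ : Q) ∈ sq t := by rw [hq]
      exact Finset.mem_subtype.symm.trans (h3.trans Finset.mem_subtype)
  have hdisj : ∀ s ∈ F, ∀ t ∈ F, s ≠ t → Disjoint (T s) (T t) := by
    intro s hs t ht hst
    rw [Finset.disjoint_left]
    rintro ⟨f, g⟩ h1 h2
    simp only [T, Finset.mem_product, Numbering.mem_prefixed] at h1 h2
    have hcs := hcard s
    have hct := hcard t
    rw [hFk s hs] at hcs
    rw [hFk t ht] at hct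
    rcases le_total (sp s).card (sp t).card with h | h
    · exact hst (nested s hs t ht (h1.1.subset_of_card_le_card h2.1 h)
        (h2.2.subset_of_card_le_card h1.2 (by omega)))
    · exact hst (nested t ht s hs (h2.1.subset_of_card_le_card h1.1 h)
        (h1.2.subset_of_card_le_card h2.2 (by omega))).symm
  have hTcard : ∀ s ∈ F, (Fintype.card P)! * (Fintype.card Q)! ≤ V * (T s).card := by
    intro s hs
    have hj : 1 ≤ (sp s).card := by
      rw [Nat.one_le_iff_ne_zero, Finset.card_ne_zero]
      by_contra hne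
      rw [Finset.not_nonempty_iff_eq_empty] at hne
      have hcs := hcard s
      rw [hFk s hs, hne, Finset.card_empty] at hcs
      have hqne : (sq s).Nonempty := by
        rw [← Finset.card_pos]; omega
      have : ∑ i ∈ sq s, x i.1 < 0 := Finset.sum_neg (fun i _ => hneg i) hqne
      have h0 := hF0 s hs
      rw [hsum, hne, Finset.sum_empty] at h0
      linarith
    have hl : 1 ≤ (sq s).card := by
      rw [Nat.one_le_iff_ne_zero, Finset.card_ne_zero]
      by_contra hne
      rw [Finset.not_nonempty_iff_eq_empty] at hne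
      have hcs := hcard s
      rw [hFk s hs, hne, Finset.card_empty] at hcs
      have hpne : (sp s).Nonempty := by
        rw [← Finset.card_pos]; omega
      have : 0 < ∑ i ∈ sp s, x i.1 := Finset.sum_pos (fun i _ => i.2) hpne
      have h0 := hF0 s hs
      rw [hsum, hne, Finset.sum_empty] at h0
      linarith
    have hVs := hV (Fintype.card P) (Fintype.card Q) (sp s).card (sq s).card hj hl hcardPQ
      (by rw [← hcard s, hFk s hs])
    have hT : (T s).card = ((sp s).card ! * (Fintype.card P - (sp s).card)!) *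
        ((sq s).card ! * (Fintype.card Q - (sq s).card)!) := by
      simp only [T, Finset.card_product, Numbering.card_prefixed]
    have hP := Nat.choose_mul_factorial_mul_factorial (Finset.card_le_univ (sp s))
    have hQ := Nat.choose_mul_factorial_mul_factorial (Finset.card_le_univ (sq s))
    calc (Fintype.card P)! * (Fintype.card Q)!
        = ((Fintype.card P).choose (sp s).card * (Fintype.card Q).choose (sq s).card) *
          (T s).card := by rw [hT, ← hP, ← hQ]; ring
      _ ≤ V * (T s).card := Nat.mul_le_mul_right _ hVs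
  have hunion : ∑ s ∈ F, (T s).card ≤ (Fintype.card P)! * (Fintype.card Q)! := by
    rw [← Finset.card_biUnion hdisj]
    refine le_trans (Finset.card_le_univ _) ?_
    rw [Fintype.card_prod, Fintype.card_numbering, Fintype.card_numbering]
  have hfin : F.card * ((Fintype.card P)! * (Fintype.card Q)!) ≤
      V * ((Fintype.card P)! * (Fintype.card Q)!) := by
    calc F.card * ((Fintype.card P)! * (Fintype.card Q)!)
        = ∑ s ∈ F, (Fintype.card P)! * (Fintype.card Q)! := by
          rw [Finset.sum_const, smul_eq_mul]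
      _ ≤ ∑ s ∈ F, V * (T s).card := Finset.sum_le_sum hTcard
      _ = V * ∑ s ∈ F, (T s).card := by rw [Finset.mul_sum]
      _ ≤ V * ((Fintype.card P)! * (Fintype.card Q)!) := Nat.mul_le_mul_left _ hunion
  exact Nat.le_of_mul_le_mul_right hfin (by positivity)

end ZeroSum

/-- A unit-free set is orthogonal to a vector all of whose coordinates are nonzero. -/
lemma exists_weights {n : ℕ} (S : Finset (Fin n → ℝ))
    (h : ∀ i : Fin n, (Pi.single i 1 : Fin n → ℝ) ∉ Submodule.span ℝ (S : Set (Fin n → ℝ))) :
    ∃ x : Fin n → ℝ, (∀ i, x i ≠ 0) ∧ ∀ v ∈ S, ∑ i, v i * x i = 0 := by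
  set W := Submodule.span ℝ (S : Set (Fin n → ℝ)) with hW
  obtain ⟨f, hf⟩ := Module.exists_dual_forall_apply_ne_zero (K := ℝ)
    (fun i : Fin n => W.mkQ (Pi.single i 1)) (fun i => by
      rw [Ne, Submodule.mkQ_apply, Submodule.Quotient.mk_eq_zero]; exact h i)
  refine ⟨fun i => f (W.mkQ (Pi.single i 1)), hf, fun v hv => ?_⟩
  have hvW : W.mkQ v = 0 := by
    rw [Submodule.mkQ_apply, Submodule.Quotient.mk_eq_zero]
    exact Submodule.subset_span hv
  have hv2 : v = ∑ i, v i • (Pi.single i (1 : ℝ) : Fin n → ℝ) := by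
    ext j
    simp [Finset.sum_apply, Pi.single_apply]
  have h0 : f (W.mkQ v) = 0 := by rw [hvW, map_zero]
  have h1 : f (W.mkQ v) = ∑ i, v i * f (W.mkQ (Pi.single i 1)) := by
    conv_lhs => rw [hv2]
    simp only [map_sum, map_smul, smul_eq_mul]
  rw [← h1, h0]

/-- For all `1 ≤ k ≤ n`, the largest size of a set of weight-`k` vertices of the `n`-dimensional
hypercube whose real span contains no standard unit vector is
`⌊(n+1)/k⌋ * C(n - ⌊(n+1)/k⌋, k-1)` if `k ≥ 2`, and `0` if `k = 1`. -/
theorem uniform_result (n k : ℕ) (hk : 1 ≤ k) (hkn : k ≤ n) :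
    IsGreatest
      {m : ℕ | ∃ S : Finset (Fin n → ℝ),
        (∀ v ∈ S, (∀ i, v i = 0 ∨ v i = 1) ∧ (univ.filter (fun i => v i = 1)).card = k) ∧
        (∀ i : Fin n,
          (Pi.single i 1 : Fin n → ℝ) ∉ Submodule.span ℝ (S : Set (Fin n → ℝ))) ∧
        S.card = m}
      (if k = 1 then 0 else ((n + 1) / k) * (n - (n + 1) / k).choose (k - 1)) := by
  classical
  constructor
  · -- attained
    by_cases hk1 : k = 1
    · rw [if_pos hk1]
      refine ⟨∅, by simp, fun i => ?_, rfl⟩
      rw [Finset.coe_empty, Submodule.span_empty, Submodule.mem_bot]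
      intro h
      have := congrFun h i
      simp at this
    rw [if_neg hk1]
    set m₀ := (n + 1) / k with hm₀
    have hm₀1 : m₀ * k ≤ n + 1 := Nat.div_mul_le_self _ _
    have hm₀pos : 1 ≤ m₀ := (Nat.one_le_div_iff (by omega)).2 (by omega)
    have hm₀n : m₀ ≤ n := by
      have : m₀ * 2 ≤ m₀ * k := Nat.mul_le_mul_left _ (by omega)
      omega
    let A : Finset (Fin n) := univ.filter (fun i => i.val < m₀)
    have hAcard : A.card = m₀ := by
      have h := Fin.card_filter_val_lt (n := n) (m := m₀)
      rw [min_eq_right hm₀n] at h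
      exact h
    have hAccard : Aᶜ.card = n - m₀ := by
      rw [Finset.card_compl, hAcard, Fintype.card_fin]
    let G : Finset (Fin n × Finset (Fin n)) := A ×ˢ Aᶜ.powersetCard (k - 1)
    let ind : Fin n × Finset (Fin n) → (Fin n → ℝ) :=
      fun p j => if j ∈ insert p.1 p.2 then 1 else 0
    have hsupp : ∀ p : Fin n × Finset (Fin n),
        univ.filter (fun i => ind p i = 1) = insert p.1 p.2 := by
      intro p
      ext j
      rw [Finset.mem_filter]
      by_cases hj : j ∈ insert p.1 p.2
      · simp only [ind, if_pos hj, hj, and_true, Finset.mem_univ]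
      · simp only [ind, if_neg hj, hj, iff_false, Finset.mem_univ, true_and]
        norm_num
    have hG : ∀ p ∈ G, p.1 ∈ A ∧ p.2 ⊆ Aᶜ ∧ p.2.card = k - 1 := by
      intro p hp
      simp only [G, Finset.mem_product, Finset.mem_powersetCard] at hp
      exact ⟨hp.1, hp.2.1, hp.2.2⟩
    have hinj : Set.InjOn ind (G : Set (Fin n × Finset (Fin n))) := by
      intro p hp q hq hpq
      have hp' := hG p hp
      have hq' := hG q hq
      have h1 : insert p.1 p.2 = insert q.1 q.2 := by rw [← hsupp p, ← hsupp q, hpq]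
      have hpn : p.1 ∉ p.2 := fun h => (Finset.mem_compl.1 (hp'.2.1 h)) hp'.1
      have hqn : q.1 ∉ q.2 := fun h => (Finset.mem_compl.1 (hq'.2.1 h)) hq'.1
      have h2 : p.1 = q.1 := by
        have h3 : p.1 ∈ insert q.1 q.2 := by rw [← h1]; exact Finset.mem_insert_self _ _
        rcases Finset.mem_insert.1 h3 with h | h
        · exact h
        · exact absurd hp'.1 (Finset.mem_compl.1 (hq'.2.1 h))
      have h4 : p.2 = q.2 := by
        have e1 : (insert p.1 p.2).erase p.1 = p.2 := Finset.erase_insert hpn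
        have e2 : (insert q.1 q.2).erase q.1 = q.2 := Finset.erase_insert hqn
        rw [← e1, ← e2, h1, h2]
      exact Prod.ext h2 h4
    let x : Fin n → ℝ := fun j => if j ∈ A then ((k : ℝ) - 1) else -1
    have hk1' : (1 : ℝ) < k := by
      have : 1 < k := by omega
      exact_mod_cast this
    have hx : ∀ j, x j ≠ 0 := by
      intro j
      by_cases hj : j ∈ A
      · simp only [x, if_pos hj]; linarith
      · simp only [x, if_neg hj]; norm_num
    let L : (Fin n → ℝ) →ₗ[ℝ] ℝ := ∑ j, x j • (LinearMap.proj j : (Fin n → ℝ) →ₗ[ℝ] ℝ)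
    have hL : ∀ v : Fin n → ℝ, L v = ∑ j, x j * v j := by
      intro v
      simp [L, LinearMap.sum_apply]
    refine ⟨G.image ind, ?_, ?_, ?_⟩
    · intro v hv
      obtain ⟨p, hp, rfl⟩ := Finset.mem_image.1 hv
      refine ⟨fun i => ?_, ?_⟩
      · by_cases hi : i ∈ insert p.1 p.2
        · right; simp only [ind, if_pos hi]
        · left; simp only [ind, if_neg hi]
      · have hp' := hG p hp
        have hpn : p.1 ∉ p.2 := fun h => (Finset.mem_compl.1 (hp'.2.1 h)) hp'.1
        rw [hsupp, Finset.card_insert_of_notMem hpn, hp'.2.2]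
        omega
    · intro i hi
      have hle : Submodule.span ℝ ((G.image ind : Finset (Fin n → ℝ)) : Set (Fin n → ℝ)) ≤
          LinearMap.ker L := by
        rw [Submodule.span_le]
        intro v hv
        obtain ⟨p, hp, rfl⟩ := Finset.mem_image.1 (Finset.mem_coe.1 hv)
        have hp' := hG p hp
        have hpn : p.1 ∉ p.2 := fun h => (Finset.mem_compl.1 (hp'.2.1 h)) hp'.1
        rw [SetLike.mem_coe, LinearMap.mem_ker, hL]
        have e1 : ∑ j, x j * ind p j = ∑ j ∈ insert p.1 p.2, x j := by
          rw [← Finset.sum_filter_add_sum_filter_not univ (fun j => j ∈ insert p.1 p.2)]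
          have z : ∑ j ∈ univ.filter (fun j => ¬ j ∈ insert p.1 p.2), x j * ind p j = 0 := by
            apply Finset.sum_eq_zero
            intro j hj
            have hj' := (Finset.mem_filter.1 hj).2
            simp only [ind, if_neg hj', mul_zero]
          rw [z, add_zero]
          have e : univ.filter (fun j => j ∈ insert p.1 p.2) = insert p.1 p.2 := by
            ext j; simp
          rw [e]
          apply Finset.sum_congr rfl
          intro j hj
          simp only [ind, if_pos hj, mul_one]
        rw [e1, Finset.sum_insert hpn]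
        have e2 : ∑ j ∈ p.2, x j = ∑ j ∈ p.2, (-1 : ℝ) := by
          apply Finset.sum_congr rfl
          intro j hj
          have : j ∉ A := Finset.mem_compl.1 (hp'.2.1 hj)
          simp only [x, if_neg this]
        rw [e2, Finset.sum_const, hp'.2.2]
        have e3 : x p.1 = (k : ℝ) - 1 := by simp only [x, if_pos hp'.1]
        rw [e3, nsmul_eq_mul, Nat.cast_sub hk]
        push_cast
        ring
      have h1 := hle hi
      rw [LinearMap.mem_ker, hL] at h1
      have h2 : ∑ j, x j * (Pi.single i 1 : Fin n → ℝ) j = x i := by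
        simp [Pi.single_apply]
      rw [h2] at h1
      exact hx i h1
    · rw [Finset.card_image_of_injOn hinj]
      simp only [G, Finset.card_product, Finset.card_powersetCard, hAcard, hAccard]
  · -- upper bound
    rintro m ⟨S, hS, hunit, rfl⟩
    obtain ⟨x, hx, hxS⟩ := exists_weights S hunit
    let F : Finset (Finset (Fin n)) := S.image (fun v => univ.filter (fun i => v i = 1))
    have hFS : F.card = S.card := by
      apply Finset.card_image_of_injOn
      intro v hv w hw hvw
      have hvw' : univ.filter (fun i => v i = 1) = univ.filter (fun i => w i = 1) := hvw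
      ext i
      have h1 : v i = 1 ↔ w i = 1 := by
        have : i ∈ univ.filter (fun i => v i = 1) ↔ i ∈ univ.filter (fun i => w i = 1) := by
          rw [hvw']
        simpa using this
      rcases (hS v hv).1 i with hv0 | hv1
      · rcases (hS w hw).1 i with hw0 | hw1
        · rw [hv0, hw0]
        · rw [hw1]; exact h1.2 hw1
      · rw [hv1]; exact (h1.1 hv1).symm
    have hFk : ∀ s ∈ F, s.card = k := by
      intro s hs
      obtain ⟨v, hv, rfl⟩ := Finset.mem_image.1 hs
      exact (hS v hv).2
    have hF0 : ∀ s ∈ F, ∑ i ∈ s, x i = 0 := by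
      intro s hs
      obtain ⟨v, hv, rfl⟩ := Finset.mem_image.1 hs
      have h1 := hxS v hv
      rw [← Finset.sum_filter_add_sum_filter_not univ (fun i => v i = 1)] at h1
      have z : ∑ j ∈ univ.filter (fun j => ¬ v j = 1), v j * x j = 0 := by
        apply Finset.sum_eq_zero
        intro j hj
        have hj' := (Finset.mem_filter.1 hj).2
        rcases (hS v hv).1 j with h | h
        · rw [h, zero_mul]
        · exact absurd h hj'
      rw [z, add_zero] at h1
      rw [← h1]
      apply Finset.sum_congr rfl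
      intro j hj
      rw [(Finset.mem_filter.1 hj).2, one_mul]
    rw [← hFS]
    by_cases hk1 : k = 1
    · rw [if_pos hk1, Nat.le_zero, Finset.card_eq_zero]
      by_contra hne
      obtain ⟨s, hs⟩ := Finset.nonempty_iff_ne_empty.2 hne
      have h1 := hFk s hs
      rw [hk1] at h1
      obtain ⟨i, rfl⟩ := Finset.card_eq_one.1 h1
      have h2 := hF0 _ hs
      rw [Finset.sum_singleton] at h2
      exact hx i h2
    · rw [if_neg hk1]
      refine zero_sum_card_le k _ x hx F hFk hF0 hk ?_
      intro a b j l hj hl hab hjl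
      rw [Fintype.card_fin] at hab
      have := prod_le a b j l hj hl (by omega)
      rwa [hab, hjl] at this

end Pool.Agent.NK.Base
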