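import Pool.Agent.helper55.NK.Spec
import Pool.Agent.helper96.NK.CHA
import Pool.Agent.helper47.NK.EXP
import Pool.Agent.helper69.NK.FIN
import Pool.Agent.helper8.NK.GEO
import Pool.Agent.helper66.NK.LOW
import Pool.Agent.helper98.NK.MO1
import Pool.Agent.helper61.NK.MO2
import Pool.Agent.helper35.NK.MON
import Pool.Agent.helper4.NK.PER
import Pool.Agent.helper53.NK.QNU
import Pool.Agent.helper94.NK.RA1
import Pool.Agent.helper95.NK.RA2
import Pool.Agent.helper29.NK.MON
import Pool.Agent.helper29.NK.VAN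
import Pool.Agent.helper58.NK.TAL
import Pool.Agent.helper54.NK.TOP
import Pool.Agent.helper40.NK.TWO
import Pool.Agent.helper64.NK.UNI

set_option autoImplicit false

namespace Pool.Agent.helper55.NK

open Pool.Agent.NK

theorem TOPf : TOP_stmt := Pool.Agent.helper54.NK.TOP Pool.Agent.helper64.NK.UNI Pool.Agent.helper29.NK.VAN
  Pool.Agent.helper94.NK.RA1 Pool.Agent.helper95.NK.RA2

theorem TWOf : TWO_stmt := Pool.Agent.helper40.NK.TWO TOPf
  (Pool.Agent.helper58.NK.TAL Pool.Agent.helper8.NK.GEO) Pool.Agent.helper66.NK.LOW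
  Pool.Agent.helper47.NK.EXP (Pool.Agent.helper53.NK.QNU Pool.Agent.helper98.NK.MO1 Pool.Agent.helper61.NK.MO2)

theorem CHAf : CHA_stmt := Pool.Agent.helper96.NK.CHA
  (Pool.Agent.helper29.NK.SIN Pool.Agent.helper35.NK.MON) TWOf Pool.Agent.helper35.NK.MON

theorem FINf : FIN_stmt := Pool.Agent.helper69.NK.FIN Pool.Agent.helper4.NK.PER CHAf

end Pool.Agent.helper55.NK
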