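import Mathlib

/-! Project NK (MP_7e34bc_co, Q2): N(n,k) = M(n,k) for all n >= 10 k.  Statements of the rows, each
with a complete proof in its docstring. -/

namespace Pool.Agent.NK

open Finset

/-- The value `M(n,t)` for `t ≥ 2`. -/
def MV (n t : ℕ) : ℕ := ((n + 1) / t) * (n - (n + 1) / t).choose (t - 1)

/-- lower bound for `h(i-1)/h(i)` -/
noncomputable def r1 (i j w : ℝ) : ℝ := i * (j * w - 1) / ((i * w + 1) * (j + 1))

/-- lower bound for `h(i-2)/h(i)` -/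
noncomputable def r2 (i j w : ℝ) : ℝ :=
  i * (i - 1) * (j * w - 1) * (j * w - 2) / ((i * w + 1) * (i * w + 2) * (j + 1) * (j + 2))

/-- the sum of the five ratios -/
noncomputable def qq (i j w : ℝ) : ℝ := 1 + r1 i j w + r1 j i w + r2 i j w + r2 j i w

/-- UNI. For fixed `i, j` the product `C(a,i) C(n-a,j)` is maximal at `a = floor (i (n+1) / (i+j))`.
Proof: `g a = C(a,i) C(n-a,j)`. For `a + 1 ≤ n`, with `b = n - a - 1`:
`C(a+1,i) (a+1-i) = C(a,i) (a+1)` and `C(b+1,j) (b+1-j) = C(b,j) (b+1)`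
(`Nat.choose_mul_succ_eq`), so `g (a+1) (a+1-i) (b+1) = g a (a+1) (b+1-j)`, and
`(a+1)(b+1-j) >= (a+1-i)(b+1)` iff `i (b+1) >= j (a+1)` iff `(a+1)(i+j) <= i (n+1)`, that is iff
`a + 1 <= a0 = i (n+1)/(i+j)`. So `g` increases up to `a0` and decreases from `a0` on (same scheme as
lemma Base.block_le in Pool/Agent/helper55/NK/Base.lean). -/
def UNI_stmt : Prop := ∀ a b i j : ℕ, 1 ≤ i → 1 ≤ j → i + j ≤ a + b →
  a.choose i * b.choose j ≤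
    (i * (a + b + 1) / (i + j)).choose i * (a + b - i * (a + b + 1) / (i + j)).choose j

/-- LOW. `M(n,t) >= (1 - 1/t)^(t-1) C(n,t)`. Proof: `q = (n+1)/t`, `n + 1 = t q + r`, `r < t`, `q >= 1`.
`C(n,t) = (n/t) C(n-1,t-1)`, so `MV/C(n,t) = (t q / n) prod_{s<t-1} (n-q-s)/(n-1-s)`
`= (t q/n) prod_{s<t-1} (1 - (q-1)/(n-1-s)) >= (t q/n) (1 - (q-1)/(n-t+1))^(t-1)` (each `n-1-s >= n-t+1`).
Here `n - t + 1 = t (q-1) + r`. If `q = 1` the power is 1, and `t q / n >= 1`... if `n < t` excluded: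
`n = t + r - 1 <= 2t-2`, `t/n >= 1/2 >= (1-1/t)^(t-1)`.
If `q >= 2`: `1 - (q-1)/(t(q-1)+r) = (1 - 1/t) (1 + r/((t-1)(t(q-1)+r)))`, Bernoulli gives
`(...)^(t-1) >= (1-1/t)^(t-1) (1 + r/(t(q-1)+r))`, and `t q / n = 1/(1 + (r-1)/(tq))`;
`1 + r/(t(q-1)+r) >= 1 + (r-1)/(tq)` because `r t q >= (r-1)(t(q-1)+r)` (as `t(q-1)+r <= tq`).
(The case `q = 1` is also covered by the same formulas.) -/
def LOW_stmt : Prop := ∀ n t : ℕ, 2 ≤ t → t ≤ n →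
  (1 - 1 / (t : ℝ)) ^ (t - 1) * (n.choose t : ℝ) ≤ (MV n t : ℝ)

/-- EXP. `(1 - 1/t)^(t-1) >= exp(-1) > 0.3678`. Proof: `1/(1 - 1/t) = 1 + 1/(t-1) <= exp(1/(t-1))`
(`Real.add_one_le_exp`), so `(1-1/t)^(t-1) >= exp(-1)`; `Real.exp_neg_one_gt_d9`. -/
def EXP_stmt : Prop := ∀ t : ℕ, 2 ≤ t → (0.3678 : ℝ) ≤ (1 - 1 / (t : ℝ)) ^ (t - 1)

/-- VAN. Five terms of the Vandermonde sum (`Nat.add_choose_eq`, antidiagonal; distinct indices). -/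
def VAN_stmt : Prop := ∀ a b i j : ℕ, 2 ≤ i → 2 ≤ j →
  a.choose i * b.choose j + a.choose (i - 1) * b.choose (j + 1) + a.choose (i + 1) * b.choose (j - 1) +
    a.choose (i - 2) * b.choose (j + 2) + a.choose (i + 2) * b.choose (j - 2) ≤ (a + b).choose (i + j)

/-- RA1. `C(a,i) i = C(a,i-1) (a-i+1)`, `C(b,j+1) (j+1) = C(b,j) (b-j)` (`Nat.choose_succ_right_eq`), so
`C(a,i-1) C(b,j+1) = C(a,i) C(b,j) i (b-j) / ((a-i+1)(j+1))`, and `a - i <= i w`, `b - j >= j w - 1`. -/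
def RA1_stmt : Prop := ∀ (a b i j : ℕ) (w : ℝ), 1 ≤ i → 1 ≤ j → i ≤ a → j ≤ b → 9 ≤ w →
  (a : ℝ) - i ≤ i * w → (j : ℝ) * w - 1 ≤ (b : ℝ) - j →
  r1 i j w * ((a.choose i : ℝ) * (b.choose j : ℝ)) ≤ (a.choose (i - 1) : ℝ) * (b.choose (j + 1) : ℝ)

/-- RA2. Two steps of the same: `C(a,i-2) C(b,j+2) = C(a,i) C(b,j) i (i-1) (b-j) (b-j-1) /`
`((a-i+1)(a-i+2)(j+1)(j+2))`. -/
def RA2_stmt : Prop := ∀ (a b i j : ℕ) (w : ℝ), 2 ≤ i → 1 ≤ j → i ≤ a → j ≤ b → 9 ≤ w →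
  (a : ℝ) - i ≤ i * w → (j : ℝ) * w - 1 ≤ (b : ℝ) - j →
  r2 i j w * ((a.choose i : ℝ) * (b.choose j : ℝ)) ≤ (a.choose (i - 2) : ℝ) * (b.choose (j + 2) : ℝ)

/-- MO1, MO2: `r1` and `r2` are monotone in all three variables (`i, j >= 2`, `w >= 9`).
`r1 = (i w/(i w + 1)) ((j - 1/w)/(j+1))`, `r2 = r1 * ((i-1) w/(i w+2)) ((j - 2/w)/(j+2))`; each factor is
nonnegative and monotone. Or cross-multiply one variable at a time. -/
def MO1_stmt : Prop := ∀ i j w i' j' w' : ℝ, 2 ≤ i → 2 ≤ j → 9 ≤ w → i ≤ i' → j ≤ j' → w ≤ w' →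
  r1 i j w ≤ r1 i' j' w'

/-- see MO1 -/
def MO2_stmt : Prop := ∀ i j w i' j' w' : ℝ, 2 ≤ i → 2 ≤ j → 9 ≤ w → i ≤ i' → j ≤ j' → w ≤ w' →
  r2 i j w ≤ r2 i' j' w'

/-- QNU. Numerical lower bounds for `qq` (from MO1, MO2). For `i + j >= 7` one of
`(i>=2, j>=5)`, `(i>=3, j>=4)`, `(i>=4, j>=3)`, `(i>=5, j>=2)` holds, and
`qq 2 5 9 = 2.8346.. = qq 5 2 9`, `qq 3 4 9 = qq 4 3 9 = 3.02..`; `qq 2 4 9 = qq 4 2 9 = 2.75..`,
`qq 3 3 9 = 2.87..`, `qq 2 3 9 = qq 3 2 9 = 2.63..`, `qq 2 2 9 = 2.4316..` (unfold, `norm_num`). -/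
def QNU_stmt : Prop := ∀ (i j : ℕ) (w : ℝ), 2 ≤ i → 2 ≤ j → 9 ≤ w →
  (7 ≤ i + j → (2.826 : ℝ) ≤ qq i j w) ∧ (i + j = 6 → (2.6 : ℝ) ≤ qq i j w) ∧
    (i + j = 5 → (2.55 : ℝ) ≤ qq i j w) ∧ (i + j = 4 → (2.43 : ℝ) ≤ qq i j w)

/-- TOP. The central term: for `i, j >= 2`, `a + b + 1 >= 10 (i+j)`:
`C(a,i) C(b,j) * qq i j w <= C(a+b,i+j)` for some `w >= 9`.
Proof: by UNI we may take `a0 = i (n+1)/(i+j)`, `b0 = n - a0`, `n = a + b`, `t = i + j`,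
`w = (n+1)/t - 1` (real division), `w >= 9`. From `a0 t <= i (n+1) < (a0+1) t`:
`a0 - i <= i w`, `a0 - i > i w - 1`, `b0 - j >= j w - 1`, `b0 - j < j w`; in particular `i <= a0`, `j <= b0`.
RA1, RA2 for `(a0,b0,i,j)` and for `(b0,a0,j,i)` bound the four neighbours in VAN. -/
def TOP_stmt : Prop := ∀ a b i j : ℕ, 2 ≤ i → 2 ≤ j → 10 * (i + j) ≤ a + b + 1 →
  ∃ w : ℝ, 9 ≤ w ∧ ((a.choose i : ℝ) * (b.choose j : ℝ)) * qq i j w ≤ ((a + b).choose (i + j) : ℝ)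

/-- GEO. `C(n,s) 9^(t-s) <= C(n,t)` for `s <= t`, `10 t <= n`. One step:
`C(n,s+1)(s+1) = C(n,s)(n-s)` and `n - s >= 9 (s+1)`. -/
def GEO_stmt : Prop := ∀ n s t : ℕ, s ≤ t → 10 * t ≤ n → n.choose s * 9 ^ (t - s) ≤ n.choose t

/-- TAL. If the numbers `c.1 + c.2` (`c` in `D`) are pairwise different and at most `t - 2`, then
`72 * sum C(n, c.1 + c.2) <= C(n,t)`. Proof: by GEO the sum is at most
`C(n,t) * sum_{d in E} 9^(-d)` with `E` a finite set of integers `>= 2`, at most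
`C(n,t) * (1/81)/(1 - 1/9) = C(n,t)/72`. -/
def TAL_stmt : Prop := ∀ (n t : ℕ) (D : Finset (ℕ × ℕ)), 10 * t ≤ n →
  (∀ c ∈ D, c.1 + c.2 + 2 ≤ t) → (∀ c ∈ D, ∀ d ∈ D, c.1 + c.2 = d.1 + d.2 → c = d) →
  72 * ∑ c ∈ D, n.choose (c.1 + c.2) ≤ n.choose t

/-- a strict chain of pairs -/
def IsCh (C : Finset (ℕ × ℕ)) : Prop :=
  ∀ c ∈ C, ∀ d ∈ C, c ≠ d → (c.1 < d.1 ∧ c.2 < d.2) ∨ (d.1 < c.1 ∧ d.2 < c.2)

/-- MON. `M(n,t) <= M(n,k)` for `2 <= t <= k`, `10 k <= n`.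
Proof: `q = (n+1)/t <= (n+1)/2`, so `n - q >= (n-1)/2 >= 2 (k-1)` and `C(n-q,t-1) <= C(n-q,k-1)`
(`Nat.choose_le_succ_of_lt_half_left` by induction), and `q C(n-q,k-1) <= MV n k` by lemma `block_le`
of Pool.Agent.helper55.NK.Base (Pool.Agent.NK.Base.block_le). -/
def MON_stmt : Prop := ∀ n t k : ℕ, 2 ≤ t → t ≤ k → 10 * k ≤ n → MV n t ≤ MV n k

/-- SIN. A single product: lemma `prod_le` of
Pool.Agent.helper55.NK.Base (Pool.Agent.NK.Base.prod_le), and MON. -/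
def SIN_stmt : Prop := ∀ a b i j k : ℕ, 1 ≤ i → 1 ≤ j → i + j ≤ k → 10 * k ≤ a + b →
  a.choose i * b.choose j ≤ MV (a + b) k

/-- TWO. The case of at least two elements. `top = (i,j)`, `i, j >= 2`, `t = i + j`, `n = a + b`;
`D` = the other elements, each strictly below `top` in both coordinates.
`C(a,c.1) C(b,c.2) <= C(n,c.1+c.2)` (one Vandermonde term). The sums `c.1+c.2` are distinct and `<= t-2`.
TOP: `C(a,i) C(b,j) <= C(n,t)/qq`. TAL: `sum_D <= C(n,t)/72`. LOW: `MV n t >= (1-1/t)^(t-1) C(n,t)`.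
`t >= 7`: `1/2.826 + 1/72 <= 0.3678` (EXP). `t = 6`: `1/2.6 + 1/72 <= (5/6)^5`.
`t = 5`: `1/2.55 + 1/72 <= (4/5)^4`.
`t = 4`: `i = j = 2`, `D` is contained in `{(1,1)}`, so `sum_D <= C(n,2)`, and
`C(n,4) * 12 = C(n,2) (n-2)(n-3) >= C(n,2) * 38 * 37`; `1/2.43 + 12/1406 <= (3/4)^3`. -/
def TWO_stmt : Prop := ∀ (a b i j : ℕ) (D : Finset (ℕ × ℕ)), 2 ≤ i → 2 ≤ j → 10 * (i + j) ≤ a + b →
  IsCh D → (∀ c ∈ D, 1 ≤ c.1 ∧ 1 ≤ c.2 ∧ c.1 < i ∧ c.2 < j) →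
  a.choose i * b.choose j + ∑ c ∈ D, a.choose c.1 * b.choose c.2 ≤ MV (a + b) (i + j)

/-- CHA. Every strict chain. Empty: clear. Otherwise take the element with the largest `c.1`; the others
are strictly below it in both coordinates. One element: SIN. More: TWO and MON (then `i, j >= 2`). -/
def CHA_stmt : Prop := ∀ (a b k : ℕ) (C : Finset (ℕ × ℕ)), 2 ≤ k → 10 * k ≤ a + b →
  (∀ c ∈ C, 1 ≤ c.1 ∧ 1 ≤ c.2 ∧ c.1 + c.2 ≤ k) → IsCh C →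
  ∑ c ∈ C, a.choose c.1 * b.choose c.2 ≤ MV (a + b) k

/-- PER. The weighted permutation argument: copy `zero_sum_card_le` of
Pool/Agent/helper55/NK/Base.lean. With `T s` as there,
`p! q! = C(p,i_s) C(q,j_s) |T s|`, so `|F| p! q! = sum_{s in F} C(p,i_s) C(q,j_s) |T s|`
`= sum_{(f,g)} sum_{s in F, (f,g) in T s} C(p,i_s) C(q,j_s)`. For fixed `(f,g)` the map
`s |-> (i_s, j_s)` is injective on `{s in F : (f,g) in T s}` and its image is a strict chain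
(the sets `sp s` are nested prefixes, the sets `sq s` too; lemma `nested` there excludes
`i_s <= i_t, j_t <= j_s` for `s ≠ t`), with `1 <= i_s`, `1 <= j_s`, `i_s + j_s = |s| <= k`.
So the inner sum is at most `V` and `|F| p! q! <= p! q! V`. -/
def PER_stmt : Prop := ∀ (n k V : ℕ) (x : Fin n → ℝ), (∀ i, x i ≠ 0) →
  ∀ F : Finset (Finset (Fin n)), (∀ s ∈ F, s.Nonempty ∧ s.card ≤ k) → (∀ s ∈ F, ∑ i ∈ s, x i = 0) →
  (∀ a b : ℕ, a + b = n → ∀ C : Finset (ℕ × ℕ), (∀ c ∈ C, 1 ≤ c.1 ∧ 1 ≤ c.2 ∧ c.1 + c.2 ≤ k) →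
    IsCh C → ∑ c ∈ C, a.choose c.1 * b.choose c.2 ≤ V) → F.card ≤ V

/-- FIN. The theorem: for `1 <= k`, `10 k <= n` the largest size of a unit-free set of nonzero 0/1 vectors
of weight at most `k` is `M(n,k)`. Lower bound: the first component of Pool.Agent.NK.Base.uniform_result (helper55/NK/Base.lean)
(import it). Upper bound: copy the second part of the proof of `uniform_result` there (`exists_weights`), with
PER and CHA (`V = MV n k`). For `k = 1`: all vectors are unit vectors, so the set is empty. -/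
def FIN_stmt : Prop := ∀ n k : ℕ, 1 ≤ k → 10 * k ≤ n →
    IsGreatest
      {m : ℕ | ∃ S : Finset (Fin n → ℝ),
        (∀ v ∈ S, (∀ i, v i = 0 ∨ v i = 1) ∧ v ≠ 0 ∧ (univ.filter (fun i => v i = 1)).card ≤ k) ∧
        (∀ i : Fin n,
          (Pi.single i 1 : Fin n → ℝ) ∉ Submodule.span ℝ (S : Set (Fin n → ℝ))) ∧
        S.card = m}
      (if k = 1 then 0 else ((n + 1) / k) * (n - (n + 1) / k).choose (k - 1))

end Pool.Agent.NK
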